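import Mathlib

set_option autoImplicit false

namespace Pool.Agent.Results.MP_2fc053_co.Unbounded

/-- `G` is a veto interval graph -/
def IsVI {V : Type} (G : SimpleGraph V) : Prop :=
  ∃ l v r : V → ℝ, (∀ a, l a < v a ∧ v a < r a) ∧
    Function.Injective (fun a => (l a, v a, r a)) ∧
    ∀ a b, a ≠ b → (G.Adj a b ↔
      (v a < l b ∧ l b < r a ∧ r a < v b) ∨ (v b < l a ∧ l a < r b ∧ r b < v a))

theorem induce_vi {V : Type} (G : SimpleGraph V) (h : IsVI G) (S : Set V) : IsVI (G.induce S) := by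
  obtain ⟨l, v, r, h1, h2, h3⟩ := h
  refine ⟨fun a => l a, fun a => v a, fun a => r a, fun a => h1 a,
    fun a b hab => Subtype.ext (h2 hab), fun a b hab => ?_⟩
  exact h3 a b (fun h => hab (Subtype.ext h))

def shift (N : ℕ) : SimpleGraph {p : Fin N × Fin N // p.1 < p.2} where
  Adj a b := a.1.2 = b.1.1 ∨ b.1.2 = a.1.1
  symm := ⟨fun a b h => h.symm⟩
  loopless := ⟨fun a h => by rcases h with h | h <;> exact absurd h a.2.ne'⟩

theorem shift_vi (N : ℕ) : IsVI (shift N) := by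
  have key : ∀ a b : {p : Fin N × Fin N // p.1 < p.2}, a.1.2 = b.1.1 ↔
      ((a.1.2 : ℕ) - 1 / 4 < ((b.1.1 : ℕ) : ℝ) ∧ ((b.1.1 : ℕ) : ℝ) < (a.1.2 : ℕ) + 1 / 4 ∧
        ((a.1.2 : ℕ) : ℝ) + 1 / 4 < (b.1.2 : ℕ) - 1 / 4) := by
    intro a b
    constructor
    · intro h
      have : ((b.1.1 : ℕ) : ℝ) + 1 ≤ (b.1.2 : ℕ) := by exact_mod_cast b.2
      rw [h]; refine ⟨by linarith, by linarith, by linarith⟩
    · rintro ⟨h1, h2, -⟩
      have e1 : ((a.1.2 : ℕ) : ℝ) < (b.1.1 : ℕ) + 1 := by linarith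
      have e2 : ((b.1.1 : ℕ) : ℝ) < (a.1.2 : ℕ) + 1 := by linarith
      have e1' : (a.1.2 : ℕ) < (b.1.1 : ℕ) + 1 := by exact_mod_cast e1
      have e2' : (b.1.1 : ℕ) < (a.1.2 : ℕ) + 1 := by exact_mod_cast e2
      exact Fin.ext (by omega)
  refine ⟨fun a => (a.1.1 : ℕ), fun a => (a.1.2 : ℕ) - 1 / 4, fun a => (a.1.2 : ℕ) + 1 / 4,
    fun a => ?_, fun a b h => ?_, fun a b _ => ?_⟩
  · have : ((a.1.1 : ℕ) : ℝ) + 1 ≤ (a.1.2 : ℕ) := by exact_mod_cast a.2
    exact ⟨by linarith, by linarith⟩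
  · simp only [Prod.mk.injEq, Nat.cast_inj, sub_left_inj, add_left_inj, and_self] at h
    exact Subtype.ext (Prod.ext (Fin.ext h.1) (Fin.ext h.2))
  · exact or_congr (key a b) (key b a)

theorem shift_not (k : ℕ) : ¬ (shift (2 ^ k + 1)).Colorable k := by
  classical
  rintro ⟨c⟩
  let S : Fin (2 ^ k + 1) → Finset (Fin k) := fun i =>
    Finset.univ.filter (fun x => ∃ j, ∃ h : i < j, c ⟨(i, j), h⟩ = x)
  have hS : ∀ i j, i < j → S i ≠ S j := by
    intro i j hij h
    have h1 : c ⟨(i, j), hij⟩ ∈ S i := by simp only [S, Finset.mem_filter]; exact ⟨by simp, j, hij, rfl⟩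
    rw [h] at h1
    simp only [S, Finset.mem_filter] at h1
    obtain ⟨-, m, hm, e⟩ := h1
    exact c.valid (show (shift _).Adj ⟨(i, j), hij⟩ ⟨(j, m), hm⟩ from Or.inl rfl) e.symm
  have hinj : Function.Injective S := by
    intro i j h
    rcases lt_trichotomy i j with h' | h' | h'
    · exact absurd h (hS i j h')
    · exact h'
    · exact absurd h.symm (hS j i h')
  have := Fintype.card_le_of_injective S hinj
  simp at this

theorem exact {V : Type} [Fintype V] (G : SimpleGraph V) (k : ℕ) (h : ¬ G.Colorable k) :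
    ∃ S : Finset V, (G.induce (S : Set V)).chromaticNumber = (k + 1 : ℕ) := by
  classical
  have hne : (Finset.univ.filter
      (fun S : Finset V => ¬ (G.induce (S : Set V)).Colorable k)).Nonempty := by
    refine ⟨Finset.univ, Finset.mem_filter.2 ⟨Finset.mem_univ _, fun hc => h ?_⟩⟩
    obtain ⟨c⟩ := hc
    exact ⟨SimpleGraph.Coloring.mk (fun x => c ⟨x, by simp⟩) (fun hab => c.valid hab)⟩
  obtain ⟨S, hS, hmin⟩ := Finset.exists_min_image _ Finset.card hne
  have hS' := (Finset.mem_filter.1 hS).2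
  refine ⟨S, ?_⟩
  have hc : (G.induce (S : Set V)).Colorable (k + 1) := by
    rcases S.eq_empty_or_nonempty with rfl | ⟨x, hx⟩
    · exact ⟨SimpleGraph.Coloring.mk (fun _ => 0) (fun {a} => absurd a.2 (by simp))⟩
    · have : (G.induce ((S.erase x : Finset V) : Set V)).Colorable k := by
        by_contra hn
        have := hmin _ (Finset.mem_filter.2 ⟨Finset.mem_univ _, hn⟩)
        have := Finset.card_erase_lt_of_mem hx
        omega
      obtain ⟨c⟩ := this
      refine ⟨SimpleGraph.Coloring.mk (fun a => if h : a.1 = x then Fin.last k else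
        (c ⟨a.1, Finset.mem_coe.2 (Finset.mem_erase.2 ⟨h, a.2⟩)⟩).castSucc) ?_⟩
      intro a b hab
      have hab' : G.Adj a.1 b.1 := hab
      by_cases ha : a.1 = x <;> by_cases hb : b.1 = x
      · exact absurd (ha.trans hb.symm) hab'.ne
      · simp only [dif_pos ha, dif_neg hb]; exact (Fin.castSucc_lt_last _).ne'
      · simp only [dif_pos hb, dif_neg ha]; exact (Fin.castSucc_lt_last _).ne
      · simp only [dif_neg ha, dif_neg hb]
        exact fun e => c.valid (by exact hab') (Fin.castSucc_injective _ e)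
  refine le_antisymm hc.chromaticNumber_le ?_
  rw [SimpleGraph.le_chromaticNumber_iff_colorable]
  intro m hm
  by_contra hlt
  have : m ≤ k := by
    have : ¬ (k + 1 ≤ m) := fun h => hlt (by exact_mod_cast h)
    omega
  exact hS' (hm.mono this)

theorem result (k : ℕ) : ∃ (V : Type) (_ : Fintype V) (G : SimpleGraph V),
    IsVI G ∧ G.chromaticNumber = (k + 1 : ℕ) := by
  classical
  obtain ⟨S, hS⟩ := exact _ k (shift_not k)
  exact ⟨_, inferInstance, _, induce_vi _ (shift_vi _) _, hS⟩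

end Pool.Agent.Results.MP_2fc053_co.Unbounded
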